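import Mathlib

set_option autoImplicit false

/-!
# Unique solutions of additive systems have numerators and denominators at most `2^(n-1)`
-/

namespace Pool.Agent.Results.MP_555c3f_al.UniqueSolution

open Matrix Finset

/-- The equations in the variables `x_i`, `i : Fin n`: `x_i = 1` and `x_i + x_j = x_k`. -/
inductive Eqn (n : ℕ)
  | one (i : Fin n)
  | add (i j k : Fin n)

/-- The equation holds at `x`. -/
def Eqn.Holds {n : ℕ} (x : Fin n → ℂ) : Eqn n → Prop
  | Eqn.one i => x i = 1
  | Eqn.add i j k => x i + x j = x k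

/-- `x` is a solution in `ℂⁿ` of the system `S`. -/
def IsSol {n : ℕ} (S : Set (Eqn n)) (x : Fin n → ℂ) : Prop := ∀ e ∈ S, e.Holds x

/-! ### Determinants -/

/-- Rows of the form `2 e_a - e_b`, where either term may be missing. -/
def Cls {m : ℕ} (v : Fin m → ℤ) : Prop :=
  ∃ a b : Option (Fin m), ∀ x, v x = (if a = some x then 2 else 0) - (if b = some x then 1 else 0)

/-- Averages of two rows of the class `Cls`. -/
def Cls2 {m : ℕ} (v : Fin m → ℤ) : Prop := ∃ a b : Fin m → ℤ, Cls a ∧ Cls b ∧ ∀ x, 2 * v x = a x + b x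

lemma opt {m : ℕ} (a : Option (Fin (m + 1))) (k : Fin (m + 1)) :
    ∃ a' : Option (Fin m), ∀ x, (a = some (k.succAbove x)) ↔ a' = some x := by
  cases a with
  | none => exact ⟨none, by simp⟩
  | some y =>
    by_cases h : y = k
    · subst h
      refine ⟨none, fun x => ?_⟩
      simp only [Option.some.injEq, reduceCtorEq, iff_false]
      exact (Fin.succAbove_ne y x).symm
    · obtain ⟨z, hz⟩ := Fin.exists_succAbove_eq h
      refine ⟨some z, fun x => ?_⟩
      rw [← hz]
      simp

lemma Cls.comp {m : ℕ} {v : Fin (m + 1) → ℤ} (h : Cls v) (k : Fin (m + 1)) :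
    Cls (fun x => v (k.succAbove x)) := by
  obtain ⟨a, b, hab⟩ := h
  obtain ⟨a', ha⟩ := opt a k
  obtain ⟨b', hb⟩ := opt b k
  refine ⟨a', b', fun x => ?_⟩
  simp only [hab, ha x, hb x]

lemma Cls2.comp {m : ℕ} {v : Fin (m + 1) → ℤ} (h : Cls2 v) (k : Fin (m + 1)) :
    Cls2 (fun x => v (k.succAbove x)) := by
  obtain ⟨a, b, ha, hb, hab⟩ := h
  exact ⟨_, _, ha.comp k, hb.comp k, fun x => hab _⟩

/-- The bound for two-term rows. -/
lemma det_cls (m : ℕ) : ∀ M : Matrix (Fin m) (Fin m) ℤ, (∀ r, Cls (M r)) → |M.det| ≤ 2 ^ m := by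
  induction m with
  | zero => intro M _; simp
  | succ m ih =>
    intro M hM
    -- the cofactors
    have hcof : ∀ r k, |(M.updateRow r (Pi.single k 1)).det| ≤ 2 ^ m := by
      intro r k
      rw [← Matrix.adjugate_apply, Matrix.adjugate_fin_succ_eq_det_submatrix, abs_mul]
      have h1 : |(-1 : ℤ) ^ ((r : ℕ) + (k : ℕ))| = 1 := by
        rw [abs_pow, abs_neg, abs_one, one_pow]
      rw [h1, one_mul]
      exact ih _ fun s => (hM (r.succAbove s)).comp k
    -- a general row
    set E : Option (Fin (m + 1)) → (Fin (m + 1) → ℤ) := fun b x => if b = some x then 1 else 0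
      with hE
    have hEs : ∀ k, E (some k) = Pi.single k 1 := by
      intro k
      funext x
      simp only [hE, Option.some.injEq, Pi.single_apply, eq_comm]
    have hcofE : ∀ r b, |(M.updateRow r (E b)).det| ≤ 2 ^ m := by
      intro r b
      cases b with
      | none =>
        have : (M.updateRow r (E none)).det = 0 := by
          apply Matrix.det_eq_zero_of_row_eq_zero r
          intro j
          simp [hE]
        rw [this, abs_zero]
        positivity
      | some k => rw [hEs]; exact hcof r k
    choose p q hpq using hM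
    have hrow : ∀ r, M r = (2 : ℤ) • E (p r) - E (q r) := by
      intro r
      funext x
      rw [hpq r x]
      simp only [hE, Pi.sub_apply, Pi.smul_apply, smul_eq_mul]
      split_ifs <;> simp
    have hsub : ∀ r (u v : Fin (m + 1) → ℤ), (M.updateRow r (u - v)).det =
        (M.updateRow r u).det - (M.updateRow r v).det := by
      intro r u v
      have h1 := Matrix.det_updateRow_add M r u ((-1 : ℤ) • v)
      rw [Matrix.det_updateRow_smul] at h1
      have e : u - v = u + (-1 : ℤ) • v := by
        rw [neg_one_smul, sub_eq_add_neg]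
      rw [e, h1]
      ring
    by_cases hsurj : ∀ x, ∃ r, p r = some x
    · -- follow the rows
      have r0 : Fin (m + 1) := 0
      obtain ⟨x0, hx0⟩ : ∃ x0, p r0 = some x0 := by
        by_contra hcon
        push Not at hcon
        choose g hg using hsurj
        have hginj : Function.Injective g := by
          intro x y hxy
          have := hg x
          rw [hxy, hg y] at this
          exact (Option.some.inj this).symm
        have hgs : Function.Surjective g := Finite.surjective_of_injective hginj
        obtain ⟨x, hx⟩ := hgs r0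
        exact hcon x (hx ▸ hg x)
      have key : ∀ K : ℕ, ∃ (c : Fin (m + 1) → ℤ) (t : Option (Fin (m + 1))),
          (∀ r, 0 ≤ c r) ∧ 2 ^ K ≤ c r0 ∧
          ∑ r, c r • M r = (2 ^ (K + 1) : ℤ) • E (some x0) - E t := by
        intro K
        induction K with
        | zero =>
          refine ⟨Pi.single r0 1, q r0, ?_, ?_, ?_⟩
          · intro r
            by_cases h : r = r0
            · subst h; simp
            · simp [h]
          · simp
          · rw [Finset.sum_eq_single r0]
            · rw [Pi.single_eq_same, one_smul, hrow r0, hx0]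
              simp
            · intro r _ hr
              rw [Pi.single_eq_of_ne hr, zero_smul]
            · intro h; exact absurd (Finset.mem_univ _) h
        | succ K ihK =>
          obtain ⟨c, t, hc0, hc1, hc2⟩ := ihK
          cases t with
          | none =>
            refine ⟨fun r => 2 * c r, none, fun r => by have := hc0 r; positivity, ?_, ?_⟩
            · calc (2 : ℤ) ^ (K + 1) = 2 * 2 ^ K := by ring
                _ ≤ 2 * c r0 := by linarith
            · have : ∑ r, (2 * c r) • M r = (2 : ℤ) • ∑ r, c r • M r := by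
                rw [Finset.smul_sum]
                apply Finset.sum_congr rfl
                intro r _
                rw [smul_smul]
              rw [this, hc2]
              have e0 : E none = 0 := by
                funext x
                simp [hE]
              rw [e0, sub_zero, sub_zero, smul_smul]
              congr 1
              ring
          | some x =>
            obtain ⟨r, hr⟩ := hsurj x
            refine ⟨fun s => 2 * c s + (Pi.single r (1 : ℤ) : Fin (m + 1) → ℤ) s, q r, ?_, ?_, ?_⟩
            · intro s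
              have h1 := hc0 s
              have h2 : 0 ≤ (Pi.single r (1 : ℤ) : Fin (m + 1) → ℤ) s := by
                by_cases h : s = r
                · subst h; simp
                · simp [h]
              positivity
            · have h2 : 0 ≤ (Pi.single r (1 : ℤ) : Fin (m + 1) → ℤ) r0 := by
                by_cases h : r0 = r
                · rw [h]; simp
                · simp [h]
              calc (2 : ℤ) ^ (K + 1) = 2 * 2 ^ K := by ring
                _ ≤ 2 * c r0 := by linarith
                _ ≤ _ := by simp only; linarith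
            · have : ∑ s, (2 * c s + (Pi.single r (1 : ℤ) : Fin (m + 1) → ℤ) s) • M s
                  = (2 : ℤ) • ∑ s, c s • M s + M r := by
                simp only [add_smul]
                rw [Finset.sum_add_distrib, Finset.smul_sum]
                congr 1
                · apply Finset.sum_congr rfl
                  intro s _
                  rw [smul_smul]
                · rw [Finset.sum_eq_single r]
                  · rw [Pi.single_eq_same, one_smul]
                  · intro s _ hs
                    rw [Pi.single_eq_of_ne hs, zero_smul]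
                  · intro h; exact absurd (Finset.mem_univ _) h
              rw [this, hc2, hrow r, hr]
              funext y
              simp only [Pi.add_apply, Pi.sub_apply, Pi.smul_apply, smul_eq_mul]
              ring
      obtain ⟨c, t, hc0, hc1, hc2⟩ := key (m + 1)
      have h1 := Matrix.det_updateRow_sum M r0 c
      rw [hc2, hsub, Matrix.det_updateRow_smul, smul_eq_mul] at h1
      have h2 := hcofE r0 (some x0)
      have h3 := hcofE r0 t
      -- `c r0 * |det| ≤ 2^(m+2) 2^m + 2^m`
      have h4 : c r0 * |M.det| ≤ 2 ^ (m + 1 + 1) * 2 ^ m + 2 ^ m := by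
        rw [← abs_of_nonneg (hc0 r0), ← abs_mul, ← h1]
        refine le_trans (abs_sub _ _) ?_
        rw [abs_mul, abs_of_nonneg (by positivity : (0 : ℤ) ≤ 2 ^ (m + 1 + 1))]
        exact add_le_add (mul_le_mul_of_nonneg_left h2 (by positivity)) h3
      have h5 : 2 ^ (m + 1) * |M.det| ≤ 2 ^ (m + 1 + 1) * 2 ^ m + 2 ^ m :=
        le_trans (mul_le_mul_of_nonneg_right hc1 (abs_nonneg _)) h4
      by_contra hcon
      rw [not_le] at hcon
      have h6 : (2 : ℤ) ^ (m + 1) + 1 ≤ |M.det| := hcon
      have h7 : (2 : ℤ) ^ (m + 1) * (2 ^ (m + 1) + 1) ≤ 2 ^ (m + 1 + 1) * 2 ^ m + 2 ^ m :=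
        le_trans (mul_le_mul_of_nonneg_left h6 (by positivity)) h5
      have h8 : (0 : ℤ) < 2 ^ m := by positivity
      have h9 : (2 : ℤ) ^ (m + 1) = 2 * 2 ^ m := by ring
      have h10 : (2 : ℤ) ^ (m + 1 + 1) = 4 * 2 ^ m := by ring
      rw [h9, h10] at h7
      nlinarith
    · -- a missing or a repeated first term
      have hcases : (∃ r, p r = none) ∨ ∃ r s, r ≠ s ∧ p r = p s := by
        by_contra hcon
        push Not at hcon
        obtain ⟨h1, h2⟩ := hcon
        apply hsurj
        have hex : ∀ r, ∃ y, p r = some y := fun r => Option.ne_none_iff_exists'.1 (h1 r)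
        choose g hg using hex
        have hginj : Function.Injective g := by
          intro r s hrs
          by_contra hne
          apply h2 r s hne
          rw [hg r, hg s, hrs]
        intro x
        obtain ⟨r, hr⟩ := (Finite.surjective_of_injective hginj) x
        exact ⟨r, by rw [hg r, hr]⟩
      have h8 : (0 : ℤ) < 2 ^ m := by positivity
      rcases hcases with ⟨r, hr⟩ | ⟨r, s, hrs, hp⟩
      · have e1 : M = M.updateRow r (M r) := by rw [Matrix.updateRow_eq_self]
        have e2 : M r = 0 - E (q r) := by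
          rw [hrow r, hr]
          have e0 : E none = 0 := by
            funext x
            simp [hE]
          rw [e0, smul_zero]
        have e3 : M.det = (M.updateRow r 0).det - (M.updateRow r (E (q r))).det := by
          rw [← hsub, ← e2, Matrix.updateRow_eq_self]
        have e4 : (M.updateRow r 0).det = 0 := by
          apply Matrix.det_eq_zero_of_row_eq_zero r
          intro j
          simp
        rw [e3, e4, zero_sub, abs_neg]
        have := hcofE r (q r)
        calc _ ≤ (2 : ℤ) ^ m := this
          _ ≤ 2 ^ (m + 1) := by rw [pow_succ]; linarith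
      · have e1 : M.det = (M.updateRow r (M r - M s)).det := by
          have := Matrix.det_updateRow_add_smul_self M hrs (-1 : ℤ)
          rw [← this]
          congr 2
          rw [neg_one_smul, sub_eq_add_neg]
        have e2 : M r - M s = E (q s) - E (q r) := by
          rw [hrow r, hrow s, hp]
          abel
        rw [e1, e2, hsub]
        refine le_trans (abs_sub _ _) ?_
        have := hcofE r (q r)
        have := hcofE r (q s)
        rw [pow_succ]
        linarith

/-- The bound for averages of two-term rows. -/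
lemma det_cls2 (m : ℕ) (M : Matrix (Fin m) (Fin m) ℤ) (hM : ∀ r, Cls2 (M r)) :
    |M.det| ≤ 2 ^ m := by
  have key : ∀ (s : Finset (Fin m)) (M : Matrix (Fin m) (Fin m) ℤ), (∀ r ∈ s, Cls2 (M r)) →
      (∀ r, r ∉ s → Cls (M r)) → |M.det| ≤ 2 ^ m := by
    intro s
    induction s using Finset.induction_on with
    | empty => intro M _ h; exact det_cls m M fun r => h r (Finset.notMem_empty r)
    | insert r s hr ih =>
      intro M h1 h2
      obtain ⟨a, b, ha, hb, hab⟩ := h1 r (Finset.mem_insert_self _ _)
      have e : (2 : ℤ) • M r = a + b := by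
        funext x
        simp only [Pi.smul_apply, Pi.add_apply, smul_eq_mul]
        exact hab x
      have e1 : 2 * M.det = (M.updateRow r a).det + (M.updateRow r b).det := by
        rw [← Matrix.det_updateRow_add, ← e, Matrix.det_updateRow_smul, Matrix.updateRow_eq_self]
      have hupd : ∀ v, Cls v → |(M.updateRow r v).det| ≤ 2 ^ m := by
        intro v hv
        apply ih
        · intro x hx
          have hxr : x ≠ r := by
            rintro rfl
            exact hr hx
          rw [Matrix.updateRow_ne hxr]
          exact h1 x (Finset.mem_insert_of_mem hx)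
        · intro x hx
          by_cases hxr : x = r
          · subst hxr
            rw [Matrix.updateRow_self]
            exact hv
          · rw [Matrix.updateRow_ne hxr]
            apply h2
            rw [Finset.mem_insert, not_or]
            exact ⟨hxr, hx⟩
      have h3 := hupd a ha
      have h4 := hupd b hb
      rw [abs_le] at h3 h4 ⊢
      constructor <;> linarith [h3.1, h3.2, h4.1, h4.2]
  exact key Finset.univ M (fun r _ => hM r) fun r h => absurd (Finset.mem_univ r) h

/-! ### The rows of the system -/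

/-- `e_i + e_j - e_k` -/
def rowAdd {n : ℕ} (i j k : Fin n) : Fin n → ℤ := Pi.single i 1 + Pi.single j 1 - Pi.single k 1

/-- `e_i - e_j` -/
def rowSub {n : ℕ} (i j : Fin n) : Fin n → ℤ := Pi.single i 1 - Pi.single j 1

lemma cls2_rowAdd {n : ℕ} (i j k : Fin n) : Cls2 (rowAdd i j k) := by
  refine ⟨fun x => 2 * (Pi.single i 1 : Fin n → ℤ) x - (Pi.single k 1 : Fin n → ℤ) x,
    fun x => 2 * (Pi.single j 1 : Fin n → ℤ) x - (Pi.single k 1 : Fin n → ℤ) x,
    ⟨some i, some k, fun x => ?_⟩, ⟨some j, some k, fun x => ?_⟩, fun x => ?_⟩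
  · simp only [Pi.single_apply, Option.some.injEq, eq_comm (a := x)]
    split_ifs <;> simp
  · simp only [Pi.single_apply, Option.some.injEq, eq_comm (a := x)]
    split_ifs <;> simp
  · simp only [rowAdd, Pi.add_apply, Pi.sub_apply]
    ring

lemma cls2_rowSub {n : ℕ} (i j : Fin n) : Cls2 (rowSub i j) := by
  refine ⟨fun x => 2 * (Pi.single i 1 : Fin n → ℤ) x - (Pi.single j 1 : Fin n → ℤ) x,
    fun x => - (Pi.single j 1 : Fin n → ℤ) x,
    ⟨some i, some j, fun x => ?_⟩, ⟨none, some j, fun x => ?_⟩, fun x => ?_⟩
  · simp only [Pi.single_apply, Option.some.injEq, eq_comm (a := x)]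
    split_ifs <;> simp
  · simp only [Pi.single_apply, Option.some.injEq, eq_comm (a := x), reduceCtorEq, if_false]
    split_ifs <;> simp
  · simp only [rowSub, Pi.sub_apply]
    ring

/-- Integer rows as complex vectors. -/
def toC {n : ℕ} (v : Fin n → ℤ) : Fin n → ℂ := fun x => (v x : ℂ)

lemma toC_single {n : ℕ} (i x : Fin n) :
    toC (Pi.single i 1) x = (Pi.single i (1 : ℂ) : Fin n → ℂ) x := by
  simp only [toC, Pi.single_apply]
  split_ifs <;> simp

lemma dot_single {n : ℕ} (i : Fin n) (y : Fin n → ℂ) :
    ∑ x, toC (Pi.single i 1) x * y x = y i := by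
  simp [toC_single, Pi.single_apply]

lemma dot_rowAdd {n : ℕ} (i j k : Fin n) (y : Fin n → ℂ) :
    ∑ x, toC (rowAdd i j k) x * y x = y i + y j - y k := by
  have : ∀ x, toC (rowAdd i j k) x * y x = toC (Pi.single i 1) x * y x +
      toC (Pi.single j 1) x * y x - toC (Pi.single k 1) x * y x := by
    intro x
    simp only [toC, rowAdd, Pi.add_apply, Pi.sub_apply]
    push_cast
    ring
  simp only [this, Finset.sum_add_distrib, Finset.sum_sub_distrib, dot_single]

lemma dot_rowSub {n : ℕ} (i j : Fin n) (y : Fin n → ℂ) :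
    ∑ x, toC (rowSub i j) x * y x = y i - y j := by
  have : ∀ x, toC (rowSub i j) x * y x = toC (Pi.single i 1) x * y x -
      toC (Pi.single j 1) x * y x := by
    intro x
    simp only [toC, rowSub, Pi.sub_apply]
    push_cast
    ring
  simp only [this, Finset.sum_sub_distrib, dot_single]

/-- The homogeneous rows of the system. -/
def rows {n : ℕ} (S : Set (Eqn n)) (i₀ : Fin n) : Set (Fin n → ℤ) :=
  {v | (∃ i, Eqn.one i ∈ S ∧ v = rowSub i i₀) ∨
    ∃ i j k, Eqn.add i j k ∈ S ∧ v = rowAdd i j k}

/-- The unique solution is the quotient of two small determinants. -/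
theorem main {m : ℕ} (S : Set (Eqn (m + 1))) (x : Fin (m + 1) → ℂ) (hx : IsSol S x)
    (huniq : ∀ y, IsSol S y → y = x) (i₀ : Fin (m + 1)) (hi₀ : Eqn.one i₀ ∈ S) :
    ∃ (D : ℤ) (w : Fin (m + 1) → ℤ), D ≠ 0 ∧ |D| ≤ 2 ^ m ∧ (∀ j, |w j| ≤ 2 ^ m) ∧
      ∀ j, (D : ℂ) * x j = w j := by
  classical
  set e₀ : Fin (m + 1) → ℂ := toC (Pi.single i₀ 1) with he₀
  set t : Set (Fin (m + 1) → ℂ) := insert e₀ (toC '' rows S i₀) with ht
  have hx₀ : x i₀ = 1 := hx _ hi₀
  have hrowx : ∀ v ∈ rows S i₀, ∑ j, toC v j * x j = 0 := by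
    rintro v (⟨i, hi, rfl⟩ | ⟨i, j, k, h, rfl⟩)
    · rw [dot_rowSub]
      have h1 : x i = 1 := hx _ hi
      rw [h1, hx₀, sub_self]
    · rw [dot_rowAdd]
      have h1 : x i + x j = x k := hx _ h
      rw [h1, sub_self]
  -- the rows span
  have hspan : Submodule.span ℂ t = ⊤ := by
    by_contra hne
    obtain ⟨f, hf0, hf⟩ := Submodule.exists_le_ker_of_lt_top _ (lt_top_iff_ne_top.2 hne)
    set y : Fin (m + 1) → ℂ := fun i => f (Pi.single i 1) with hy
    have hfy : ∀ v : Fin (m + 1) → ℂ, f v = ∑ i, v i * y i := by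
      intro v
      conv_lhs => rw [← Finset.univ_sum_single v]
      rw [map_sum]
      apply Finset.sum_congr rfl
      intro i _
      have : (Pi.single i (v i) : Fin (m + 1) → ℂ) = v i • Pi.single i 1 := by
        rw [← Pi.single_smul]
        simp
      rw [this, map_smul, smul_eq_mul]
    have hft : ∀ v ∈ t, f v = 0 := fun v hv => hf (Submodule.subset_span hv)
    have hy0 : y i₀ = 0 := by
      have := hft e₀ (Set.mem_insert _ _)
      rwa [hfy, he₀, dot_single] at this
    have hsol : IsSol S (x + y) := by
      intro e he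
      cases e with
      | one i =>
        have h1 : f (toC (rowSub i i₀)) = 0 :=
          hft _ (Set.mem_insert_of_mem _ ⟨_, Or.inl ⟨i, he, rfl⟩, rfl⟩)
        rw [hfy, dot_rowSub, hy0, sub_zero] at h1
        have h2 : x i = 1 := hx _ he
        show x i + y i = 1
        rw [h1, h2, add_zero]
      | add i j k =>
        have h1 : f (toC (rowAdd i j k)) = 0 :=
          hft _ (Set.mem_insert_of_mem _ ⟨_, Or.inr ⟨i, j, k, he, rfl⟩, rfl⟩)
        rw [hfy, dot_rowAdd] at h1
        have h2 : x i + x j = x k := hx _ he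
        show x i + y i + (x j + y j) = x k + y k
        linear_combination h1 + h2
    have hyz : y = 0 := by
      have := huniq _ hsol
      simpa using this
    apply hf0
    ext v
    simp [hfy, hyz]
  -- choose a basis containing `e₀`
  have he₀ne : e₀ ≠ 0 := by
    intro h
    have := congrFun h i₀
    rw [he₀, toC_single] at this
    simp at this
  have hs : LinearIndepOn ℂ id ({e₀} : Set (Fin (m + 1) → ℂ)) :=
    LinearIndepOn.singleton he₀ne
  obtain ⟨b, hbt, hsb, htb, hb⟩ := exists_linearIndepOn_id_extension hs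
    (show {e₀} ⊆ t from Set.singleton_subset_iff.2 (Set.mem_insert _ _))
  have hbspan : ⊤ ≤ Submodule.span ℂ (Set.range (fun z : b => (z : Fin (m + 1) → ℂ))) := by
    rw [Subtype.range_coe, ← hspan]
    exact Submodule.span_le.2 htb
  have hbli : LinearIndependent ℂ (fun z : b => (z : Fin (m + 1) → ℂ)) := hb
  let B := Module.Basis.mk hbli hbspan
  have : Finite b := hbli.finite
  have : Fintype b := Fintype.ofFinite b
  have hcard : Fintype.card b = Fintype.card (Fin (m + 1)) := by
    rw [← Module.finrank_eq_card_basis B, Module.finrank_pi]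
  let σ : Fin (m + 1) ≃ b := (Fintype.equivOfCardEq hcard).symm
  set r₀ : Fin (m + 1) := σ.symm ⟨e₀, hsb (Set.mem_singleton _)⟩ with hr₀
  have hσr₀ : (σ r₀ : Fin (m + 1) → ℂ) = e₀ := by rw [hr₀]; simp
  have hrow : ∀ r, ∃ v : Fin (m + 1) → ℤ, toC v = (σ r : Fin (m + 1) → ℂ) ∧
      (r ≠ r₀ → v ∈ rows S i₀) := by
    intro r
    by_cases h : r = r₀
    · exact ⟨Pi.single i₀ 1, by rw [h, hσr₀], fun h' => absurd h h'⟩
    · have h1 : (σ r : Fin (m + 1) → ℂ) ∈ t := hbt (σ r).2
      rcases h1 with h1 | ⟨v, hv, hv'⟩
      · exfalso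
        apply h
        apply σ.injective
        apply Subtype.ext
        rw [h1, hσr₀]
      · exact ⟨v, hv', fun _ => hv⟩
  choose M hM1 hM2 using hrow
  set Mi : Matrix (Fin (m + 1)) (Fin (m + 1)) ℤ := Matrix.of M with hMi
  set Mc : Matrix (Fin (m + 1)) (Fin (m + 1)) ℂ := Mi.map (Int.castRingHom ℂ) with hMc
  have hMcrow : ∀ r, Mc r = (σ r : Fin (m + 1) → ℂ) := by
    intro r
    rw [← hM1 r]
    rfl
  have hunit : IsUnit Mc := by
    rw [← Matrix.linearIndependent_rows_iff_isUnit]
    have : Mc.row = (fun z : b => (z : Fin (m + 1) → ℂ)) ∘ σ := by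
      funext r
      exact hMcrow r
    rw [this]
    exact hbli.comp σ σ.injective
  have hdetc : Mc.det = (Mi.det : ℂ) := by
    rw [hMc, ← RingHom.mapMatrix_apply, ← RingHom.map_det]
    simp
  have hdet : Mi.det ≠ 0 := by
    intro h
    rw [Matrix.isUnit_iff_isUnit_det, hdetc, h] at hunit
    simp at hunit
  -- the right-hand side
  have hMx : Mc *ᵥ x = Pi.single r₀ 1 := by
    funext r
    have h1 : (Mc *ᵥ x) r = ∑ j, toC (M r) j * x j := rfl
    rw [h1]
    by_cases h : r = r₀
    · subst h
      rw [hM1, hσr₀, he₀, dot_single, hx₀, Pi.single_eq_same]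
    · rw [hrowx _ (hM2 r h), Pi.single_eq_of_ne h]
  have hadj : ∀ j, (Mi.det : ℂ) * x j = (Mi.adjugate j r₀ : ℂ) := by
    intro j
    have h1 : Mc.adjugate *ᵥ (Mc *ᵥ x) = Mc.det • x := by
      rw [Matrix.mulVec_mulVec, Matrix.adjugate_mul, Matrix.smul_mulVec, Matrix.one_mulVec]
    rw [hMx] at h1
    have h2 := congrFun h1 j
    rw [Matrix.mulVec_single_one] at h2
    have h3 : Mc.adjugate = Mi.adjugate.map (Int.castRingHom ℂ) := by
      rw [hMc, ← RingHom.mapMatrix_apply, ← RingHom.map_adjugate]
      rfl
    rw [h3] at h2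
    simp only [Pi.smul_apply, smul_eq_mul, hdetc] at h2
    rw [← h2]
    rfl
  have hbound : ∀ j, |Mi.adjugate j r₀| ≤ 2 ^ m := by
    intro j
    rw [Matrix.adjugate_fin_succ_eq_det_submatrix, abs_mul]
    have h1 : |(-1 : ℤ) ^ ((r₀ : ℕ) + (j : ℕ))| = 1 := by
      rw [abs_pow, abs_neg, abs_one, one_pow]
    rw [h1, one_mul]
    apply det_cls2
    intro s
    have h2 : M (r₀.succAbove s) ∈ rows S i₀ := hM2 _ (Fin.succAbove_ne r₀ s)
    have h3 : Cls2 (M (r₀.succAbove s)) := by
      rcases h2 with ⟨i, _, hi⟩ | ⟨i, j, k, _, hi⟩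
      · rw [hi]; exact cls2_rowSub _ _
      · rw [hi]; exact cls2_rowAdd _ _ _
    exact h3.comp j
  refine ⟨Mi.det, fun j => Mi.adjugate j r₀, hdet, ?_, hbound, hadj⟩
  have h1 := hadj i₀
  rw [hx₀, mul_one] at h1
  have h2 : Mi.det = Mi.adjugate i₀ r₀ := by exact_mod_cast h1
  rw [h2]
  exact hbound i₀

/-- If a system of equations `x_i = 1`, `x_i + x_j = x_k` in `n` variables has exactly one solution
in `ℂⁿ`, then all its coordinates are rational numbers whose numerators and denominators are at
most `2^(n-1)` in absolute value. -/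
theorem result {n : ℕ} (S : Set (Eqn n)) (x : Fin n → ℂ) (hx : IsSol S x)
    (huniq : ∀ y, IsSol S y → y = x) (i : Fin n) :
    ∃ r : ℚ, x i = (r : ℂ) ∧ |r.num| ≤ 2 ^ (n - 1) ∧ (r.den : ℤ) ≤ 2 ^ (n - 1) := by
  by_cases hone : ∃ i₀, Eqn.one i₀ ∈ S
  · obtain ⟨i₀, hi₀⟩ := hone
    obtain ⟨m, rfl⟩ : ∃ m, n = m + 1 := ⟨n - 1, by have := i.2; omega⟩
    obtain ⟨D, w, hD0, hD, hw, hDw⟩ := main S x hx huniq i₀ hi₀
    have hm : m + 1 - 1 = m := by omega
    rw [hm]
    refine ⟨Rat.divInt (w i) D, ?_, ?_, ?_⟩
    · have hDc : (D : ℂ) ≠ 0 := by exact_mod_cast hD0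
      rw [Rat.divInt_eq_div]
      push_cast
      rw [eq_div_iff hDc, mul_comm]
      exact hDw i
    · have h1 := Rat.num_dvd (w i) hD0
      by_cases hw0 : w i = 0
      · rw [hw0, Rat.zero_divInt]
        simp
      · exact le_trans (Int.le_of_dvd (abs_pos.2 hw0) ((abs_dvd_abs _ _).2 h1)) (hw i)
    · have h1 := Rat.den_dvd (w i) D
      have h2 : ((Rat.divInt (w i) D).den : ℤ) ∣ |D| := (dvd_abs _ _).2 h1
      exact le_trans (Int.le_of_dvd (abs_pos.2 hD0) h2) hD
  · have h0 : IsSol S 0 := by
      intro e he
      cases e with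
      | one i => exact absurd ⟨i, he⟩ hone
      | add i j k => show (0 : ℂ) + 0 = 0; simp
    have h1 := huniq 0 h0
    refine ⟨0, ?_, ?_, ?_⟩
    · rw [← h1]; simp
    · simp
    · simp only [Rat.den_zero, Nat.cast_one]
      exact one_le_pow₀ (by norm_num)

end Pool.Agent.Results.MP_555c3f_al.UniqueSolution
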